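import Pool.Agent.L7h95.CD.Stm2

set_option autoImplicit false

/-!
# Project CD, second stage: consecutive Gray parts (adapted from Pool/Agent/L7h60/CD/Di2.lean)
-/

namespace Pool.Agent.L7h53.CD

open Finset Function
open Pool.Agent.L7h95.CD

theorem cnt (w m : ℕ) : ∑ g : Fin w, (if g.1 < m then 1 else 0) = min w m := by
  rw [← Finset.sum_range (fun i => if i < m then 1 else 0)]
  induction w with
  | zero => simp
  | succ w ih =>
    rw [Finset.sum_range_succ, ih]
    split_ifs <;> omega

theorem tabW (w l m m' : ℕ) (e : Fin w → Bool) (hl : 1 ≤ l) (hw : 3 * l + 1 ≤ w) (hm : m ≤ w)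
    (hm' : m' ≤ w) (he : m < m' → (univ.filter (fun g => e g = true)).card ≤ l) :
    1 + ∑ g : Fin w, (if g.1 < m' ∧ m ≤ g.1 then (if e g = true then 0 else 2)
      else if g.1 < m' ∨ m ≤ g.1 then 1 else 0) = w + 1 + m' - m ∨
    (m < m' ∧ 4 ≤ 1 + ∑ g : Fin w, (if g.1 < m' ∧ m ≤ g.1 then (if e g = true then 0 else 2)
      else if g.1 < m' ∨ m ≤ g.1 then 1 else 0)) := by
  set S := ∑ g : Fin w, (if g.1 < m' ∧ m ≤ g.1 then (if e g = true then 0 else 2)
      else if g.1 < m' ∨ m ≤ g.1 then 1 else 0) with hS
  set x := ∑ g : Fin w, (if (g.1 < m' ∧ m ≤ g.1) ∧ e g = true then 1 else 0) with hx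
  have h1 := cnt w m'
  have h2 := cnt w m
  have h3 : ∑ g : Fin w, (if m ≤ g.1 then 1 else 0) + ∑ g : Fin w, (if g.1 < m then 1 else 0) = w := by
    rw [← Finset.sum_add_distrib]
    have : ∀ g : Fin w, ((if m ≤ g.1 then 1 else 0) + (if g.1 < m then 1 else 0)) = 1 := by
      intro g
      split_ifs <;> omega
    rw [Finset.sum_congr rfl (fun g _ => this g)]
    simp
  have h4 : S + 2 * x = ∑ g : Fin w, (if g.1 < m' then 1 else 0) +
      ∑ g : Fin w, (if m ≤ g.1 then 1 else 0) := by
    rw [hS, hx, Finset.mul_sum, ← Finset.sum_add_distrib, ← Finset.sum_add_distrib]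
    refine Finset.sum_congr rfl fun g _ => ?_
    by_cases a : g.1 < m' <;> by_cases b : m ≤ g.1 <;> cases e g <;> simp [a, b]
  have h5 : x ≤ (univ.filter (fun g => e g = true)).card := by
    rw [hx, Finset.card_filter]
    refine Finset.sum_le_sum fun g _ => ?_
    by_cases a : (g.1 < m' ∧ m ≤ g.1) <;> cases e g <;> simp [a]
  have h6 : x + ∑ g : Fin w, (if g.1 < m then 1 else 0) ≤
      ∑ g : Fin w, (if g.1 < m' ∨ g.1 < m then 1 else 0) := by
    rw [hx, ← Finset.sum_add_distrib]
    refine Finset.sum_le_sum fun g _ => ?_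
    by_cases a : g.1 < m' <;> by_cases b : g.1 < m
    · have b' : ¬ m ≤ g.1 := by omega
      cases e g <;> simp [a, b, b']
    · have b' : m ≤ g.1 := by omega
      cases e g <;> simp [a, b, b']
    · have b' : ¬ m ≤ g.1 := by omega
      cases e g <;> simp [a, b, b']
    · have b' : m ≤ g.1 := by omega
      cases e g <;> simp [a, b, b']
  have h7 : ∑ g : Fin w, (if g.1 < m' ∨ g.1 < m then 1 else 0) =
      ∑ g : Fin w, (if g.1 < max m' m then 1 else 0) := by
    refine Finset.sum_congr rfl fun g _ => ?_
    have : (g.1 < m' ∨ g.1 < m) ↔ g.1 < max m' m := by omega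
    exact if_congr this rfl rfl
  have h8 := cnt w (max m' m)
  rw [h7] at h6
  by_cases hmm : m < m'
  · have h9 := he hmm
    by_cases hx0 : x = 0
    · left
      omega
    · right
      refine ⟨hmm, ?_⟩
      omega
  · left
    omega

theorem row {r : ℕ} (P Q : Prop) [Decidable P] [Decidable Q] (a b : Fin r) :
    ∑ z : Fin r, (if ((if P ∧ b = z then 1 else 0) + (if Q ∧ a = z then 1 else 0) : ZMod 2) ≠ 0
      then 1 else 0) =
    if P ∧ Q then (if (decide (a = b)) = true then 0 else 2) else if P ∨ Q then 1 else 0 := by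
  by_cases hP : P
  · by_cases hQ : Q
    · by_cases hab : a = b
      · subst hab
        simp only [hP, hQ, true_and, and_self, if_true, decide_true]
        apply Finset.sum_eq_zero
        intro z _
        have : ((if a = z then 1 else 0) + (if a = z then 1 else 0) : ZMod 2) = 0 :=
          CharTwo.add_self_eq_zero _
        rw [this]
        simp
      · simp only [hP, hQ, true_and, and_self, if_true, hab, decide_false, Bool.false_eq_true,
          if_false]
        have h1 : ∀ z : Fin r, (if ((if b = z then 1 else 0) + (if a = z then 1 else 0) : ZMod 2) ≠ 0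
            then 1 else 0) = (if z = a then 1 else 0) + (if z = b then 1 else 0) := by
          intro z
          by_cases h2 : b = z
          · have h3 : ¬ a = z := fun h3 => hab (h3.trans h2.symm)
            have h4 : ¬ z = a := fun h4 => h3 h4.symm
            have h5 : z = b := h2.symm
            rw [if_pos h2, if_neg h3, if_neg h4, if_pos h5]
            simp
          · have h5 : ¬ z = b := fun h4 => h2 h4.symm
            by_cases h3 : a = z
            · rw [if_neg h2, if_pos h3, if_pos h3.symm, if_neg h5]
              simp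
            · have h4 : ¬ z = a := fun h4 => h3 h4.symm
              rw [if_neg h2, if_neg h3, if_neg h4, if_neg h5]
              simp
        rw [Finset.sum_congr rfl (fun z _ => h1 z), Finset.sum_add_distrib]
        simp
    · simp [hP, hQ]
  · by_cases hQ : Q
    · simp [hP, hQ]
    · simp [hP, hQ]

theorem s_DJ2 : S_DJ2 := by
  intro p r w l φ c γ hl hw hcode hgray v m m' hm hm' hv hv2
  have hstep := hgray.step v hv2
  have hAB : m < m' → c (v - 1) ≠ c v := by
    intro hmm hAB
    have hv1 : 1 ≤ v := by
      by_contra h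
      have := hv (by omega)
      omega
    have h1 := hgray.step (v - 1) (by omega)
    rw [Nat.sub_add_cancel hv1] at h1
    apply hgray.inj (v - 1) (v + 1) (by omega) hv2
    rw [hstep, h1, hAB]
    funext j
    simp only [Pi.add_apply]
    have : Pi.single (M := fun _ => ZMod 2) (c v) 1 j + Pi.single (M := fun _ => ZMod 2) (c v) 1 j = 0 :=
      CharTwo.add_self_eq_zero _
    rw [add_assoc, this, add_zero]
  have hdist : hammingDist (yw φ c γ v m) (yw φ c γ (v + 1) m') =
      1 + ∑ g : Fin w, (if g.1 < m' ∧ m ≤ g.1 then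
        (if (decide (φ (c (v - 1)) g = φ (c v) g)) = true then 0 else 2)
        else if g.1 < m' ∨ m ≤ g.1 then 1 else 0) := by
    unfold hammingDist
    rw [Finset.card_filter, Fintype.sum_sum_type, Fintype.sum_prod_type]
    congr 1
    · have h1 : ∀ j : Fin p, (if yw φ c γ v m (Sum.inl j) ≠ yw φ c γ (v + 1) m' (Sum.inl j)
          then 1 else 0) = if j = c v then 1 else 0 := by
        intro j
        have h0 : (γ v j ≠ γ (v + 1) j) ↔ j = c v := by
          rw [hstep, Pi.add_apply]
          by_cases hj : j = c v
          · subst hj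
            rw [Pi.single_eq_same]
            refine ⟨fun _ => rfl, fun _ h => ?_⟩
            have h2 : (1 : ZMod 2) = 0 := by
              have := congrArg (fun t => t - γ v (c v)) h
              simpa using this.symm
            exact absurd h2 (by decide)
          · rw [Pi.single_eq_of_ne hj, add_zero]
            exact ⟨fun h => absurd rfl h, fun h => absurd h hj⟩
        exact if_congr h0 rfl rfl
      rw [Finset.sum_congr rfl (fun j _ => h1 j)]
      simp
    · refine Finset.sum_congr rfl fun g _ => ?_
      rw [← row (g.1 < m') (m ≤ g.1) (φ (c (v - 1)) g) (φ (c v) g)]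
      refine Finset.sum_congr rfl fun z _ => ?_
      have h2 : ∑ j, γ (v + 1) j * (if φ j g = z then 1 else 0) =
          (∑ j, γ v j * (if φ j g = z then 1 else 0)) + (if φ (c v) g = z then 1 else 0) := by
        rw [hstep]
        simp only [Pi.add_apply, add_mul, Finset.sum_add_distrib]
        congr 1
        rw [Finset.sum_eq_single (c v)]
        · rw [Pi.single_eq_same, one_mul]
        · intro j _ hj
          rw [Pi.single_eq_of_ne hj, zero_mul]
        · intro h
          exact absurd (mem_univ _) h
      have h3 : yw φ c γ v m (Sum.inr (g, z)) = (∑ j, γ v j * (if φ j g = z then 1 else 0)) +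
          (if m ≤ g.1 ∧ φ (c (v - 1)) g = z then 1 else 0) := rfl
      have h4 : yw φ c γ (v + 1) m' (Sum.inr (g, z)) =
          (∑ j, γ (v + 1) j * (if φ j g = z then 1 else 0)) +
          (if m' ≤ g.1 ∧ φ (c v) g = z then 1 else 0) := rfl
      rw [h3, h4, h2]
      have h5 : ∀ X s t u : ZMod 2, (X + s ≠ X + t + u ↔ (t + u) + s ≠ 0) := by decide
      have h6 : ((if φ (c v) g = z then 1 else 0) + (if m' ≤ g.1 ∧ φ (c v) g = z then 1 else 0) :
          ZMod 2) = if g.1 < m' ∧ φ (c v) g = z then 1 else 0 := by
        by_cases h7 : φ (c v) g = z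
        · by_cases h8 : m' ≤ g.1
          · rw [if_pos h7, if_pos ⟨h8, h7⟩, if_neg (fun h => absurd h.1 (not_lt.2 h8))]
            decide
          · rw [if_pos h7, if_neg (fun h => h8 h.1), if_pos ⟨not_le.1 h8, h7⟩]
            decide
        · rw [if_neg h7, if_neg (fun h => h7 h.2), if_neg (fun h => h7 h.2)]
          decide
      have h9 := h5 (∑ j, γ v j * (if φ j g = z then 1 else 0))
        (if m ≤ g.1 ∧ φ (c (v - 1)) g = z then 1 else 0) (if φ (c v) g = z then 1 else 0)
        (if m' ≤ g.1 ∧ φ (c v) g = z then 1 else 0)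
      rw [h6] at h9
      exact if_congr h9 rfl rfl
  rw [hdist]
  have h := tabW w l m m' (fun g => decide (φ (c (v - 1)) g = φ (c v) g)) hl hw hm hm'
    (fun hmm => by
      have h1 := hcode (c (v - 1)) (c v) (hAB hmm)
      simpa only [decide_eq_true_eq] using h1)
  exact h

end Pool.Agent.L7h53.CD
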